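import Pool.Agent.W645.WV.Stm

/-!
# Summing the dyadic pieces
-/

set_option autoImplicit false

open MeasureTheory Set Complex Filter Topology
open scoped ENNReal

namespace Pool.Agent.W348.WV

open Pool.Agent.W645.WV

/-- Summation of pieces in `L^p`. -/
theorem abs_sum {X : Type*} [MeasurableSpace X] (μ : Measure X) (p : ℝ) (hp : 1 ≤ p)
    (F : ℕ → X → ℂ) (hF : ∀ k, Measurable (F k)) (G : X → ℂ)
    (hG : ∀ᵐ x ∂μ, Tendsto (fun K => ∑ k ∈ Finset.range K, F k x) atTop (𝓝 (G x)))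
    (c : ℕ → ℝ) (hc : ∀ k, 0 ≤ c k) (hs : Summable fun k => c k ^ (1 / p)) (D : ℝ≥0∞)
    (hA : ∀ k, ∫⁻ x, ‖F k x‖ₑ ^ p ∂μ ≤ ENNReal.ofReal (c k) * D) :
    ∫⁻ x, ‖G x‖ₑ ^ p ∂μ ≤ ENNReal.ofReal ((∑' k, c k ^ (1 / p)) ^ p) * D := by
  have hp0 : 0 < p := by linarith
  have hP0 : ENNReal.ofReal p ≠ 0 := by simp [hp0]
  have hPt : ENNReal.ofReal p ≠ ⊤ := ENNReal.ofReal_ne_top
  have hPr : (ENNReal.ofReal p).toReal = p := ENNReal.toReal_ofReal hp0.le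
  have hP1 : 1 ≤ ENNReal.ofReal p := by
    rw [← ENNReal.ofReal_one]; exact ENNReal.ofReal_le_ofReal hp
  have key : ∀ f : X → ℂ, eLpNorm f (ENNReal.ofReal p) μ = (∫⁻ x, ‖f x‖ₑ ^ p ∂μ) ^ (1 / p) := by
    intro f
    rw [eLpNorm_eq_lintegral_rpow_enorm_toReal hP0 hPt, hPr]
  have hcs : ∀ k, 0 ≤ c k ^ (1 / p) := fun k => Real.rpow_nonneg (hc k) _
  -- bound on the pieces
  have h1 : ∀ k, eLpNorm (F k) (ENNReal.ofReal p) μ ≤ ENNReal.ofReal (c k ^ (1 / p)) * D ^ (1 / p) := by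
    intro k
    rw [key]
    calc (∫⁻ x, ‖F k x‖ₑ ^ p ∂μ) ^ (1 / p) ≤ (ENNReal.ofReal (c k) * D) ^ (1 / p) :=
          ENNReal.rpow_le_rpow (hA k) (by positivity)
      _ = ENNReal.ofReal (c k ^ (1 / p)) * D ^ (1 / p) := by
          rw [ENNReal.mul_rpow_of_nonneg _ _ (by positivity),
            ENNReal.ofReal_rpow_of_nonneg (hc k) (by positivity)]
  have h2 : ∀ K : ℕ, eLpNorm (fun x => ∑ k ∈ Finset.range K, F k x) (ENNReal.ofReal p) μ ≤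
      ENNReal.ofReal (∑' k, c k ^ (1 / p)) * D ^ (1 / p) := by
    intro K
    have e : (fun x => ∑ k ∈ Finset.range K, F k x) = ∑ k ∈ Finset.range K, F k := by
      ext x; simp
    rw [e]
    calc eLpNorm (∑ k ∈ Finset.range K, F k) (ENNReal.ofReal p) μ
        ≤ ∑ k ∈ Finset.range K, eLpNorm (F k) (ENNReal.ofReal p) μ :=
          eLpNorm_sum_le (fun k _ => (hF k).aestronglyMeasurable) hP1
      _ ≤ ∑ k ∈ Finset.range K, ENNReal.ofReal (c k ^ (1 / p)) * D ^ (1 / p) :=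
          Finset.sum_le_sum fun k _ => h1 k
      _ = (ENNReal.ofReal (∑ k ∈ Finset.range K, c k ^ (1 / p))) * D ^ (1 / p) := by
          rw [ENNReal.ofReal_sum_of_nonneg (fun k _ => hcs k), Finset.sum_mul]
      _ ≤ _ := by
          gcongr
          exact hs.sum_le_tsum _ (fun k _ => hcs k)
  have h3 : eLpNorm G (ENNReal.ofReal p) μ ≤ ENNReal.ofReal (∑' k, c k ^ (1 / p)) * D ^ (1 / p) := by
    refine (Lp.eLpNorm_lim_le_liminf_eLpNorm (f := fun K x => ∑ k ∈ Finset.range K, F k x)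
      (fun K => (Finset.measurable_sum _ fun k _ => hF k).aestronglyMeasurable) G hG).trans ?_
    refine Filter.liminf_le_of_frequently_le' ?_
    exact Filter.Frequently.of_forall h2
  rw [key] at h3
  have h4 := ENNReal.rpow_le_rpow h3 hp0.le
  rw [← ENNReal.rpow_mul, one_div, inv_mul_cancel₀ hp0.ne', ENNReal.rpow_one,
    ENNReal.mul_rpow_of_nonneg _ _ hp0.le, ← ENNReal.rpow_mul, inv_mul_cancel₀ hp0.ne',
    ENNReal.rpow_one, ENNReal.ofReal_rpow_of_nonneg _ hp0.le] at h4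
  · simpa [one_div] using h4
  · exact tsum_nonneg fun k => by simpa [one_div] using hcs k

/-- the coefficients are summable -/
theorem coef_summable (n : ℕ) (p s C : ℝ) (hp : 2 ≤ p) (hs : 1 / 2 - 1 / p < s) (hC : 0 < C) :
    Summable fun k : ℕ =>
      (C * ((2 : ℝ) ^ ((k : ℝ) * (p / 2 - 1 - p * s)) * (1 + (k : ℝ)) ^ n)) ^ (1 / p) := by
  have hp0 : 0 < p := by linarith
  set r : ℝ := (2 : ℝ) ^ (1 / 2 - 1 / p - s) with hr
  have hr0 : 0 < r := by positivity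
  have hr1 : r < 1 := Real.rpow_lt_one_of_one_lt_of_neg (by norm_num) (by linarith)
  have h1 : Summable fun k : ℕ => ((k + 1 : ℕ) : ℝ) ^ n * r ^ (k + 1) :=
    (summable_nat_add_iff 1).2 (summable_pow_mul_geometric_of_norm_lt_one n
      (r := r) (by rw [Real.norm_of_nonneg hr0.le]; exact hr1))
  have h2 : Summable fun k : ℕ => (C ^ (1 / p) * r⁻¹) * (((k + 1 : ℕ) : ℝ) ^ n * r ^ (k + 1)) :=
    h1.mul_left _
  refine Summable.of_nonneg_of_le (fun k => by positivity) (fun k => ?_) h2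
  have hk1 : (1 : ℝ) ≤ 1 + (k : ℝ) := by
    have : (0 : ℝ) ≤ k := Nat.cast_nonneg k
    linarith
  have e1 : ((2 : ℝ) ^ ((k : ℝ) * (p / 2 - 1 - p * s))) ^ (1 / p) = r ^ k := by
    rw [hr, ← Real.rpow_mul (by norm_num), ← Real.rpow_natCast, ← Real.rpow_mul (by norm_num)]
    congr 1
    field_simp
  have e2 : ((1 + (k : ℝ)) ^ n) ^ (1 / p) ≤ (1 + (k : ℝ)) ^ n := by
    have h : (1 : ℝ) ≤ (1 + (k : ℝ)) ^ n := one_le_pow₀ hk1
    calc ((1 + (k : ℝ)) ^ n) ^ (1 / p) ≤ ((1 + (k : ℝ)) ^ n) ^ (1 : ℝ) :=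
          Real.rpow_le_rpow_of_exponent_le h (by rw [div_le_one hp0]; linarith)
      _ = _ := Real.rpow_one _
  rw [Real.mul_rpow hC.le (by positivity), Real.mul_rpow (by positivity) (by positivity), e1]
  have e3 : C ^ (1 / p) * r⁻¹ * (((k + 1 : ℕ) : ℝ) ^ n * r ^ (k + 1)) =
      C ^ (1 / p) * (r ^ k * (1 + (k : ℝ)) ^ n) := by
    push_cast
    rw [pow_succ]
    field_simp
    ring
  rw [e3]
  gcongr

variable {n : ℕ}

/-- the symbol -/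
noncomputable def Sy (u₀ u₁ : (Fin n → ℝ) → ℂ) (a : Fin n → ℝ) (t : ℝ) (ξ : Fin n → ℝ) : ℂ :=
  ((Real.cos (2 * Real.pi * t * Real.sqrt (H a ξ)) : ℝ) : ℂ) * FT u₀ ξ +
    ((sn t (H a ξ) : ℝ) : ℂ) * FT u₁ ξ

/-- the character -/
noncomputable def ch (x ξ : Fin n → ℝ) : ℂ :=
  cexp (2 * (Real.pi : ℂ) * I * ((∑ j, x j * ξ j : ℝ) : ℂ))

theorem norm_ch (x ξ : Fin n → ℝ) : ‖ch x ξ‖ = 1 := by
  unfold ch
  have : 2 * (Real.pi : ℂ) * I * ((∑ j, x j * ξ j : ℝ) : ℂ) =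
      ((2 * Real.pi * ∑ j, x j * ξ j : ℝ) : ℂ) * I := by push_cast; ring
  rw [this, Complex.norm_exp_ofReal_mul_I]

theorem cont_ch (x : Fin n → ℝ) : Continuous (ch x) := by
  unfold ch
  fun_prop

theorem cont_H (a : Fin n → ℝ) : Continuous (H a) := by
  unfold H
  fun_prop

theorem H_nonneg {a : Fin n → ℝ} (ha : a ∈ box n) (ξ : Fin n → ℝ) : 0 ≤ H a ξ := by
  unfold H
  refine Finset.sum_nonneg fun j _ => mul_nonneg ?_ (sq_nonneg _)
  have := ha.1 j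
  simp only at this
  linarith

theorem Wm_eq (m : ℝ → ℂ) (u₀ u₁ : (Fin n → ℝ) → ℂ) (a : Fin n → ℝ) (t : ℝ) (x : Fin n → ℝ) :
    Wm m u₀ u₁ a t x = ∫ ξ, m (H a ξ) * Sy u₀ u₁ a t ξ * ch x ξ := rfl

theorem W_eq (u₀ u₁ : (Fin n → ℝ) → ℂ) (a : Fin n → ℝ) (t : ℝ) (x : Fin n → ℝ) :
    W u₀ u₁ a t x = ∫ ξ, Sy u₀ u₁ a t ξ * ch x ξ := rfl

theorem integ {S : (Fin n → ℝ) → ℂ} (hS : Integrable S) (m : ℝ → ℂ) (hm : Measurable m) (B : ℝ)
    (hB : ∀ y, ‖m y‖ ≤ B) (a x : Fin n → ℝ) :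
    Integrable fun ξ => m (H a ξ) * S ξ * ch x ξ := by
  have h1 : Integrable fun ξ => m (H a ξ) * S ξ :=
    hS.bdd_mul (c := B) (hm.comp (cont_H a).measurable).aestronglyMeasurable
      (Filter.Eventually.of_forall fun ξ => hB _)
  have h2 : Integrable fun ξ => ch x ξ * (m (H a ξ) * S ξ) :=
    h1.bdd_mul (c := 1) (cont_ch x).aestronglyMeasurable
      (Filter.Eventually.of_forall fun ξ => (norm_ch x ξ).le)
  exact h2.congr (Filter.Eventually.of_forall fun ξ => by simp only; ring)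


/-- the multipliers of the pieces -/
noncomputable def mk (ψ₀ ψ : ℝ → ℂ) (k : ℕ) (y : ℝ) : ℂ :=
  if k = 0 then ψ₀ y else ψ (((4 : ℝ) ^ k)⁻¹ * y)

theorem mk_sum {ψ₀ ψ ψ' : ℝ → ℂ} {N : ℝ} (h : PU ψ₀ ψ ψ' N) (K : ℕ) (y : ℝ) (hy : 0 ≤ y) :
    ∑ k ∈ Finset.range (K + 1), mk ψ₀ ψ k y = ψ₀ (((4 : ℝ) ^ K)⁻¹ * y) := by
  obtain ⟨-, -, -, -, -, -, -, hψ, -, -⟩ := h
  induction K with
  | zero => simp [mk]
  | succ K ih =>
    rw [Finset.sum_range_succ, ih]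
    have e : mk ψ₀ ψ (K + 1) y = ψ (((4 : ℝ) ^ (K + 1))⁻¹ * y) := by simp [mk]
    rw [e, hψ _ (by positivity)]
    have e2 : 4 * (((4 : ℝ) ^ (K + 1))⁻¹ * y) = ((4 : ℝ) ^ K)⁻¹ * y := by
      rw [pow_succ]
      field_simp
    rw [e2]
    ring

theorem psi_bound {ψ₀ ψ ψ' : ℝ → ℂ} {N : ℝ} (h : PU ψ₀ ψ ψ' N) (y : ℝ) : ‖ψ y‖ ≤ 2 := by
  obtain ⟨-, -, -, hb, -, -, hs, hψ, -, -⟩ := h
  by_cases hy : ψ y = 0
  · rw [hy]; simp
  · have h1 := hs y hy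
    rw [hψ y (by linarith [h1.1])]
    calc ‖ψ₀ y - ψ₀ (4 * y)‖ ≤ ‖ψ₀ y‖ + ‖ψ₀ (4 * y)‖ := norm_sub_le _ _
      _ ≤ 1 + 1 := add_le_add (hb _) (hb _)
      _ = 2 := by norm_num

theorem mk_bound {ψ₀ ψ ψ' : ℝ → ℂ} {N : ℝ} (h : PU ψ₀ ψ ψ' N) (k : ℕ) (y : ℝ) :
    ‖mk ψ₀ ψ k y‖ ≤ 2 := by
  unfold mk
  split_ifs
  · exact (h.2.2.2.1 y).trans (by norm_num)
  · exact psi_bound h _

theorem mk_meas {ψ₀ ψ ψ' : ℝ → ℂ} {N : ℝ} (h : PU ψ₀ ψ ψ' N) (k : ℕ) :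
    Measurable (mk ψ₀ ψ k) := by
  have h0 : Continuous ψ₀ := h.2.1.continuous
  have h1 : Continuous ψ := h.2.2.2.2.2.1.1.continuous
  unfold mk
  split_ifs
  · exact h0.measurable
  · exact (h1.comp (continuous_const.mul continuous_id)).measurable

/-- the multiplier tends to one -/
theorem conv {ψ₀ ψ ψ' : ℝ → ℂ} {N : ℝ} (h : PU ψ₀ ψ ψ' N) {S : (Fin n → ℝ) → ℂ}
    (hS : Integrable S) {a : Fin n → ℝ} (ha : a ∈ box n) (x : Fin n → ℝ) :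
    Tendsto (fun K => ∑ k ∈ Finset.range K, ∫ ξ, mk ψ₀ ψ k (H a ξ) * S ξ * ch x ξ) atTop
      (𝓝 (∫ ξ, S ξ * ch x ξ)) := by
  rw [← tendsto_add_atTop_iff_nat 1]
  have e : ∀ K : ℕ, ∑ k ∈ Finset.range (K + 1), ∫ ξ, mk ψ₀ ψ k (H a ξ) * S ξ * ch x ξ =
      ∫ ξ, ψ₀ (((4 : ℝ) ^ K)⁻¹ * H a ξ) * S ξ * ch x ξ := by
    intro K
    rw [← integral_finsetSum]
    · refine integral_congr_ae (Filter.Eventually.of_forall fun ξ => ?_)
      simp only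
      rw [← Finset.sum_mul, ← Finset.sum_mul, mk_sum h K _ (H_nonneg ha ξ)]
    · intro k _
      exact integ hS _ (mk_meas h k) 2 (mk_bound h k) a x
  simp_rw [e]
  have h0 : Continuous ψ₀ := h.2.1.continuous
  have hb := h.2.2.2.1
  have hone := h.2.2.2.2.1
  refine tendsto_integral_of_dominated_convergence (fun ξ => ‖S ξ‖) ?_ hS.norm ?_ ?_
  · intro K
    exact (integ hS (fun y => ψ₀ (((4 : ℝ) ^ K)⁻¹ * y))
      (h0.comp (continuous_const.mul continuous_id)).measurable 1 (fun y => hb _) a x).1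
  · intro K
    refine Filter.Eventually.of_forall fun ξ => ?_
    rw [norm_mul, norm_mul, norm_ch, mul_one]
    calc ‖ψ₀ (((4 : ℝ) ^ K)⁻¹ * H a ξ)‖ * ‖S ξ‖ ≤ 1 * ‖S ξ‖ := by gcongr; exact hb _
      _ = _ := one_mul _
  · refine Filter.Eventually.of_forall fun ξ => ?_
    have ht : Tendsto (fun K : ℕ => ((4 : ℝ) ^ K)⁻¹ * H a ξ) atTop (𝓝 0) := by
      have h1 : Tendsto (fun K : ℕ => ((4 : ℝ) ^ K)⁻¹) atTop (𝓝 0) := by
        simp_rw [← inv_pow]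
        exact tendsto_pow_atTop_nhds_zero_of_lt_one (by norm_num) (by norm_num)
      simpa using h1.mul_const (H a ξ)
    have hev : ∀ᶠ K : ℕ in atTop, ((4 : ℝ) ^ K)⁻¹ * H a ξ < 1 :=
      ht.eventually (gt_mem_nhds (by norm_num))
    refine Tendsto.congr' ?_ tendsto_const_nhds
    filter_upwards [hev] with K hK
    rw [hone _ (mul_nonneg (by positivity) (H_nonneg ha ξ)) hK.le, one_mul]

/-- the measure -/
noncomputable def mu (n : ℕ) : Measure (((Fin n → ℝ) × ℝ) × (Fin n → ℝ)) :=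
  ((volume.restrict (box n)).prod (volume.restrict (Icc (1 : ℝ) 2))).prod volume

theorem iter (f : ((Fin n → ℝ) × ℝ) × (Fin n → ℝ) → ℝ≥0∞) (hf : Measurable f) :
    ∫⁻ q, f q ∂(mu n) = ∫⁻ a in box n, ∫⁻ t in Icc (1 : ℝ) 2, ∫⁻ x, f ((a, t), x) := by
  unfold mu
  rw [lintegral_prod _ hf.aemeasurable, lintegral_prod]
  exact (hf.lintegral_prod_right').aemeasurable

theorem ae_mu : ∀ᵐ q ∂(mu n), q.1.1 ∈ box n ∧ q.1.2 ∈ Icc (1 : ℝ) 2 := by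
  unfold mu
  have h1 : ∀ᵐ z ∂((volume.restrict (box n)).prod (volume.restrict (Icc (1 : ℝ) 2))),
      z.1 ∈ box n ∧ z.2 ∈ Icc (1 : ℝ) 2 := by
    have ha : ∀ᵐ a ∂(volume.restrict (box n)), a ∈ box n :=
      ae_restrict_mem measurableSet_Icc
    have ht : ∀ᵐ t ∂(volume.restrict (Icc (1 : ℝ) 2)), t ∈ Icc (1 : ℝ) 2 :=
      ae_restrict_mem measurableSet_Icc
    have ha' := Measure.quasiMeasurePreserving_fst
      (μ := volume.restrict (box n)) (ν := volume.restrict (Icc (1 : ℝ) 2)) |>.ae ha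
    have ht' := Measure.quasiMeasurePreserving_snd
      (μ := volume.restrict (box n)) (ν := volume.restrict (Icc (1 : ℝ) 2)) |>.ae ht
    exact ha'.and ht'
  exact (Measure.quasiMeasurePreserving_fst
    (μ := (volume.restrict (box n)).prod (volume.restrict (Icc (1 : ℝ) 2)))
    (ν := (volume : Measure (Fin n → ℝ)))).ae h1

theorem mainp : S_PU1 → S_HIGH → S_ZERO → S_WM → S_MAINP := by
  rintro ⟨ψ₀, ψ, ψ', N, hPU⟩ hHIGH hZERO hWM n p s hp2 hp4 hs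
  obtain ⟨C1, hC1, hH⟩ := hHIGH ψ₀ ψ ψ' N hPU n p s hp2 hp4
  obtain ⟨C0, hC0, hZ⟩ := hZERO ψ₀ ψ ψ' N hPU n p s hp2 hp4
  have hp0 : 0 < p := by linarith
  set C : ℝ := C0 + C1 with hC
  have hCpos : 0 < C := by positivity
  set c : ℕ → ℝ := fun k : ℕ =>
      C * ((2 : ℝ) ^ ((k : ℝ) * (p / 2 - 1 - p * s)) * (1 + (k : ℝ)) ^ n) with hc
  have hcnn : ∀ k, 0 ≤ c k := fun k => by
    rw [hc]; positivity
  have hsum : Summable fun k => c k ^ (1 / p) := coef_summable n p s C hp2 hs hCpos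
  have hBnn : 0 ≤ (∑' k, c k ^ (1 / p)) ^ p :=
    Real.rpow_nonneg (tsum_nonneg fun k => Real.rpow_nonneg (hcnn k) _) _
  refine ⟨(∑' k, c k ^ (1 / p)) ^ p + 1, by positivity, fun u₀ u₁ => ?_⟩
  have hS : ∀ (a : Fin n → ℝ) (t : ℝ), 0 ≤ t → Integrable (Sy (⇑u₀) (⇑u₁) a t) :=
    (hWM n u₀ u₁ (fun _ => 0) measurable_const (fun y => by simp)).2.2
  have hWmeas : Measurable (fun q : ((Fin n → ℝ) × ℝ) × (Fin n → ℝ) =>
      W (⇑u₀) (⇑u₁) q.1.1 q.1.2 q.2) :=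
    (hWM n u₀ u₁ (fun _ => 0) measurable_const (fun y => by simp)).2.1
  set F : ℕ → ((Fin n → ℝ) × ℝ) × (Fin n → ℝ) → ℂ := fun k q =>
    Wm (mk ψ₀ ψ k) (⇑u₀) (⇑u₁) q.1.1 q.1.2 q.2 with hF
  have hFm : ∀ k, Measurable (F k) := by
    intro k
    have h1 := (hWM n u₀ u₁ (fun y => (1 / 2 : ℂ) * mk ψ₀ ψ k y)
      (measurable_const.mul (mk_meas hPU k)) (fun y => by
        rw [norm_mul]
        have := mk_bound hPU k y
        have e : ‖(1 / 2 : ℂ)‖ = 1 / 2 := by norm_num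
        rw [e]
        linarith)).1
    have h2 : F k = fun q : ((Fin n → ℝ) × ℝ) × (Fin n → ℝ) =>
        (2 : ℂ) * Wm (fun y => (1 / 2 : ℂ) * mk ψ₀ ψ k y) (⇑u₀) (⇑u₁) q.1.1 q.1.2 q.2 := by
      ext q
      rw [hF]
      simp only
      rw [Wm_eq, Wm_eq, ← integral_const_mul]
      congr 1
      ext ξ
      ring
    rw [h2]
    exact measurable_const.mul h1
  have hA : ∀ k, ∫⁻ q, ‖F k q‖ₑ ^ p ∂(mu n) ≤
      ENNReal.ofReal (c k) * DN p s (⇑u₀) (⇑u₁) := by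
    intro k
    rw [iter _ ((hFm k).enorm.pow_const p)]
    rcases Nat.eq_zero_or_pos k with rfl | hk
    · have e : mk ψ₀ ψ 0 = ψ₀ := by ext y; simp [mk]
      simp only [hF, e]
      refine (hZ u₀ u₁).1.trans ?_
      gcongr
      rw [hc]
      simp only [Nat.cast_zero, zero_mul, Real.rpow_zero, add_zero, one_pow, mul_one]
      linarith
    · have e : mk ψ₀ ψ k = fun y => ψ (((4 : ℝ) ^ k)⁻¹ * y) := by
        ext y; simp [mk, hk.ne']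
      simp only [hF, e]
      refine (hH u₀ u₁ k hk).1.trans ?_
      gcongr
      rw [hc]
      simp only
      gcongr
      linarith
  have hG : ∀ᵐ q ∂(mu n), Tendsto (fun K => ∑ k ∈ Finset.range K, F k q) atTop
      (𝓝 (W (⇑u₀) (⇑u₁) q.1.1 q.1.2 q.2)) := by
    filter_upwards [ae_mu (n := n)] with q hq
    have := conv hPU (hS q.1.1 q.1.2 (by linarith [hq.2.1])) hq.1 q.2
    simpa only [hF, Wm_eq, W_eq] using this
  have hfin := abs_sum (mu n) p (by linarith) F hFm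
    (fun q => W (⇑u₀) (⇑u₁) q.1.1 q.1.2 q.2) hG c hcnn hsum _ hA
  rw [iter _ (hWmeas.enorm.pow_const p)] at hfin
  refine hfin.trans ?_
  gcongr
  linarith

end Pool.Agent.W348.WV
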